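import Pool.Agent.Lib_helper49.SIX.EightB
import Pool.Agent.Lib_helper49.SIX.Density

set_option autoImplicit false

/-! # Six as a difference of two perfect powers: almost all exponents

For integers `x`, `y` with `y > 0` and exponents `p > 0`, `q`, the equation `x ^ p - y ^ q = 6` is
excluded for `p` divisible by 6, 8, 10, 14 or 20 as soon as `q` has divisors in certain residue
classes; hence the set of all `q` for which there is a solution with `x, y ≥ 2` and `p > 0`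
divisible by 6, 8, 10 or 14 has natural density 0. -/

namespace Pool.Agent.Results.MP_025ea6_nt.AlmostAllExponents

open Finset Filter Topology Pool.Agent.SIX

/-- the class `227 mod 420` serves for `6 ∣ p` and `10 ∣ p` -/
theorem class_one {x y : ℤ} {p q r : ℕ} (hy : 0 < y) (hp0 : 0 < p) (hp : 6 ∣ p ∨ 10 ∣ p)
    (hr : r ∣ q) (hr' : r % 420 = 227) : x ^ p - y ^ q ≠ 6 := by
  intro h
  rcases hp with hp | hp
  · exact six_dvd hy hp h hr (by omega) hr (by omega) (by omega) (by omega)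
  · exact ten_dvd hy hp hp0 h hr (Or.inl (by omega)) hr (by omega) (by omega)

/-- the class `1205 mod 1806` serves for `14 ∣ p` -/
theorem class_two {x y : ℤ} {p q r : ℕ} (hy : 0 < y) (hp0 : 0 < p) (hp : 14 ∣ p)
    (hr : r ∣ q) (hr' : r % 1806 = 1205) : x ^ p - y ^ q ≠ 6 := by
  intro h
  refine fourteen_dvd hy hp hp0 h hr (by omega) hr (by omega) (by omega) ?_
  rw [jac43 (show r % 43 = 1 by omega)]
  norm_num

theorem result :
    (∀ (x y : ℤ) (p q d e : ℕ), 0 < y → 6 ∣ p → d ∣ q → d % 6 = 5 →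
      e ∣ q → (e % 6 = 1 ∨ e % 6 = 5) → ¬ (e % 7 = 1 ∨ e % 7 = 2 ∨ e % 7 = 4) →
      x ^ p - y ^ q ≠ 6) ∧
    (∀ (x y : ℤ) (p q d e : ℕ), 0 < y → 0 < p → 10 ∣ p → d ∣ q → d % 4 = 3 →
      e ∣ q → e % 2 = 1 → ¬ (e % 5 = 1 ∨ e % 5 = 4) → x ^ p - y ^ q ≠ 6) ∧
    (∀ (x y : ℤ) (p q e : ℕ), 0 < y → 0 < p → 20 ∣ p →
      e ∣ q → e % 2 = 1 → ¬ (e % 5 = 1 ∨ e % 5 = 4) → x ^ p - y ^ q ≠ 6) ∧
    (∀ (x y : ℤ) (p q d e : ℕ), 0 < y → 0 < p → 14 ∣ p → d ∣ q → d % 42 = 29 →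
      e ∣ q → e % 6 = 5 → e % 7 ≠ 0 → jacobiSym (e : ℤ) 43 ≠ -1 → x ^ p - y ^ q ≠ 6) ∧
    (∀ (x y : ℤ) (p q d₁ d₂ d₃ d₄ e : ℕ), 0 < y → 0 < p → 8 ∣ p →
      d₁ ∣ q → d₁ % 1296 = 325 → d₂ ∣ q → d₂ % 1296 = 941 →
      d₃ ∣ q → d₃ % 1296 = 1205 → d₄ ∣ q → d₄ % 1296 = 1069 →
      e ∣ q → e % 8 = 5 → e % 3 ≠ 0 → jacobiSym (e : ℤ) 1297 ≠ -1 → x ^ p - y ^ q ≠ 6) ∧
    Tendsto (fun N : ℕ => (({q : ℕ | q < N ∧ ∃ (x y : ℤ) (p : ℕ), 2 ≤ x ∧ 2 ≤ y ∧ 0 < p ∧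
      (6 ∣ p ∨ 8 ∣ p ∨ 10 ∣ p ∨ 14 ∣ p) ∧ x ^ p - y ^ q = 6}.ncard : ℕ) : ℝ) / N) atTop (𝓝 0) := by
  refine ⟨?_, ?_, ?_, ?_, ?_, ?_⟩
  · intro x y p q d e hy hp hd hd6 he he6 he7 h
    exact six_dvd hy hp h hd hd6 he (by omega) (by omega) he7
  · intro x y p q d e hy hp0 hp hd hd4 he he2 he5 h
    exact ten_dvd hy hp hp0 h hd (Or.inl hd4) he he2 he5
  · intro x y p q e hy hp0 hp he he2 he5 h
    exact ten_dvd hy (dvd_trans (by norm_num) hp) hp0 h he (Or.inr ⟨hp, he2, by omega⟩) he he2 he5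
  · intro x y p q d e hy hp0 hp hd hd42 he he6 he7 he43 h
    exact fourteen_dvd hy hp hp0 h hd hd42 he he6 he7 he43
  · intro x y p q d₁ d₂ d₃ d₄ e hy hp0 hp h1 h1' h2 h2' h3 h3' h4 h4' he he8 he3 hej h
    exact eight_dvd hy hp hp0 h h1 h1' h2 h2' h3 h3' h4 h4' he he8 he3 hej
  · apply dens_of {(420, 227), (1806, 1205), (1296, 325), (1296, 941), (1296, 1205),
      (1296, 1069), (31128, 5189)} (by decide)
    rintro q ⟨x, y, p, hx, hy, hp0, hp, h⟩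
    by_contra hcon
    push_neg at hcon
    have hy0 : 0 < y := by linarith
    rcases hp with hp | hp | hp | hp
    · obtain ⟨r, -, hr', hr⟩ := hcon (420, 227) (by simp)
      exact class_one hy0 hp0 (Or.inl hp) hr hr' h
    · obtain ⟨r₁, -, h1', h1⟩ := hcon (1296, 325) (by simp)
      obtain ⟨r₂, -, h2', h2⟩ := hcon (1296, 941) (by simp)
      obtain ⟨r₃, -, h3', h3⟩ := hcon (1296, 1205) (by simp)
      obtain ⟨r₄, -, h4', h4⟩ := hcon (1296, 1069) (by simp)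
      obtain ⟨e, -, he', he⟩ := hcon (31128, 5189) (by simp)
      simp only at h1' h2' h3' h4' he'
      refine eight_dvd hy0 hp hp0 h h1 h1' h2 h2' h3 h3' h4 h4' he (by omega) (by omega) ?_
      have h5 : (e : ℤ) % ((1297 : ℕ) : ℤ) = 1 % ((1297 : ℕ) : ℤ) := by omega
      rw [jacobiSym.mod_left' h5, jacobiSym.one_left]
      norm_num
    · obtain ⟨r, -, hr', hr⟩ := hcon (420, 227) (by simp)
      exact class_one hy0 hp0 (Or.inr hp) hr hr' h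
    · obtain ⟨r, -, hr', hr⟩ := hcon (1806, 1205) (by simp)
      exact class_two hy0 hp0 hp hr hr' h

end Pool.Agent.Results.MP_025ea6_nt.AlmostAllExponents
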