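import Pool.Agent.Lib_helper94.Six.Main

/-!
# Six is not x^p - y^q with p even and q <= 2000, up to nine values of q

x + sqrt 6 = (5 + 2 sqrt 6)^j * g^d in the norm-Euclidean ring Z[sqrt 6]; every class j modulo d is
excluded by primes l = 1 mod d for which 6 is a square (tables checked by the kernel). Special
arguments for the exponents 2, 3, 7, 25, 53.
-/

namespace Pool.Agent.Results.MP_025ea6_nt.EvenFirstExponent

theorem result (p q d : ℕ) (x y : ℤ) (hp : Even p) (hdq : d ∣ q) (h2 : 2 ≤ d) (h2000 : d ≤ 2000)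
    (hd : d ∉ ([5, 13, 17, 19, 29, 31, 37, 41, 59] : List ℕ)) :
    x ^ p - y ^ q ≠ 6 :=
  Pool.Agent.Lib_helper94.Six.main p q d x y hp hdq h2 h2000 hd

end Pool.Agent.Results.MP_025ea6_nt.EvenFirstExponent
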