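import Pool.Agent.Lib_helper66.SIX.Local

/-!
`x ^ P - y ^ Q = 6` has no solution in integers for the exponents divisible by one of the pairs of
a table of odd coprime exponents (in either order).
-/

namespace Pool.Agent.Results.MP_025ea6_nt.LocalObstructions

open Pool.Agent.Lib_helper66.SIX

/-- For every row `(p, [q, ...])` of the list and every `q` of the row: if `p ∣ P` and `q ∣ Q`, or
`q ∣ P` and `p ∣ Q`, then `x ^ P - y ^ Q ≠ 6` for all integers `x`, `y`. -/
theorem result : ∀ r ∈ ([(3, [17, 103, 233, 443, 607, 761, 835, 941, 1001, 1103, 1265, 1321, 1651, 1733, 1777, 1973, 2137, 2161]),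
      (5, [33, 57, 63, 129, 151, 201, 609, 937, 943, 987, 1107, 1131, 1261, 1333]),
      (7, [25, 27, 45, 47, 69, 153, 195, 215, 237, 663, 741, 767, 927, 929]),
      (9, [29, 139, 205, 217, 275, 625, 701, 709, 737]),
      (11, [123, 137, 201, 229, 235, 243, 325, 351, 445, 513, 591, 609, 619]),
      (13, [57, 75, 77, 125, 281, 537]),
      (15, [61, 79, 91, 193, 223, 251, 253, 317, 329, 377]),
      (17, [205, 259]),
      (19, [29, 71, 77, 81, 197, 201, 227, 313]),
      (21, [65, 79, 271]),
      (23, [43, 55, 127, 171, 205, 261, 263]),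
      (25, [101, 159, 263]),
      (27, [65, 239]),
      (29, [167, 175]),
      (31, [51, 59, 131, 189]),
      (33, [193]),
      (35, [43, 177, 181]),
      (37, [177]),
      (39, [59, 179]),
      (43, [65]),
      (45, [121]),
      (47, [87]),
      (49, [107]),
      (51, [59, 79]),
      (53, [63, 67, 131]),
      (61, [63, 71, 101]),
      (65, [87]),
      (71, [81]),
      (75, [83])] : List (ℕ × List ℕ)),
    ∀ q ∈ r.2, ∀ P Q : ℕ, (r.1 ∣ P ∧ q ∣ Q) ∨ (q ∣ P ∧ r.1 ∣ Q) →
      ∀ x y : ℤ, x ^ P - y ^ Q ≠ 6 := by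
  have key : ∀ r ∈ ([(3, [17, 103, 233, 443, 607, 761, 835, 941, 1001, 1103, 1265, 1321, 1651, 1733, 1777, 1973, 2137, 2161]),
      (5, [33, 57, 63, 129, 151, 201, 609, 937, 943, 987, 1107, 1131, 1261, 1333]),
      (7, [25, 27, 45, 47, 69, 153, 195, 215, 237, 663, 741, 767, 927, 929]),
      (9, [29, 139, 205, 217, 275, 625, 701, 709, 737]),
      (11, [123, 137, 201, 229, 235, 243, 325, 351, 445, 513, 591, 609, 619]),
      (13, [57, 75, 77, 125, 281, 537]),
      (15, [61, 79, 91, 193, 223, 251, 253, 317, 329, 377]),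
      (17, [205, 259]),
      (19, [29, 71, 77, 81, 197, 201, 227, 313]),
      (21, [65, 79, 271]),
      (23, [43, 55, 127, 171, 205, 261, 263]),
      (25, [101, 159, 263]),
      (27, [65, 239]),
      (29, [167, 175]),
      (31, [51, 59, 131, 189]),
      (33, [193]),
      (35, [43, 177, 181]),
      (37, [177]),
      (39, [59, 179]),
      (43, [65]),
      (45, [121]),
      (47, [87]),
      (49, [107]),
      (51, [59, 79]),
      (53, [63, 67, 131]),
      (61, [63, 71, 101]),
      (65, [87]),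
      (71, [81]),
      (75, [83])] : List (ℕ × List ℕ)),
      ∀ q ∈ r.2, ∃ t ∈ table, t.1 = r.1 ∧ t.2.1 = q := by
    decide +kernel
  intro r hr q hq P Q hPQ x y
  obtain ⟨t, ht, h1, h2⟩ := key r hr q hq
  rw [← h1, ← h2] at hPQ
  exact table_main ht hPQ x y

end Pool.Agent.Results.MP_025ea6_nt.LocalObstructions
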